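import Mathlib

set_option autoImplicit false

open Filter Topology
open scoped ENNReal

namespace Pool.Agent.Results.MP_97ba4e_an.WeakNotNorm

/-- `g` is a nearest point to `x` in the set `G`. -/
def IsNearest {E : Type} [NormedAddCommGroup E] (G : Set E) (x g : E) : Prop :=
  g ∈ G ∧ ∀ h ∈ G, ‖x - g‖ ≤ ‖x - h‖

/-- `G` is a Chebyshev set: every `x` has exactly one nearest point in `G`. -/
def IsChebyshev {E : Type} [NormedAddCommGroup E] (G : Set E) : Prop :=
  ∀ x : E, ∃! g : E, IsNearest G x g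

/-- `π` is continuous from `E` with its weak topology to `E` with its weak topology. -/
def WeaklyContinuous (𝕜 : Type) [RCLike 𝕜] {E : Type} [NormedAddCommGroup E] [NormedSpace 𝕜 E]
    (π : E → E) : Prop :=
  Continuous (fun x : WeakSpace 𝕜 E => toWeakSpace 𝕜 E (π ((toWeakSpace 𝕜 E).symm x)))

section abstr

variable (𝕜 Q G : Type) [RCLike 𝕜] [NormedAddCommGroup Q] [InnerProductSpace 𝕜 Q]
  [NormedAddCommGroup G] [NormedSpace 𝕜 G]

/-- A homogeneous, bounded, norm-to-weak continuous map `Q → G`. -/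
structure Dat where
  /-- the map -/
  σ : Q → G
  hom : ∀ (c : 𝕜) (z : Q), σ (c • z) = c • σ z
  le : ∀ z, ‖σ z‖ ≤ ‖z‖
  cont : ∀ φ : G →L[𝕜] 𝕜, Continuous (fun z => φ (σ z))

variable {𝕜 Q G}

namespace Dat

variable (D : Dat 𝕜 Q G)

/-- The functional to be minimised. -/
noncomputable def cost (l : List Q) (g : G) : ℝ :=
  (l.map norm).sum + ‖g - (l.map D.σ).sum‖

theorem sum_norm_nonneg (l : List Q) : 0 ≤ (l.map norm).sum :=
  List.sum_nonneg (by
    intro x hx
    obtain ⟨y, -, rfl⟩ := List.mem_map.1 hx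
    exact norm_nonneg y)

theorem cost_nonneg (l : List Q) (g : G) : 0 ≤ D.cost l g :=
  add_nonneg (sum_norm_nonneg l) (norm_nonneg _)

/-- The new norm. -/
noncomputable def N (p : Q × G) : ℝ := ⨅ l : {l : List Q // l.sum = p.1}, D.cost l.1 p.2

theorem N_le (l : List Q) (g : G) : D.N (l.sum, g) ≤ D.cost l g :=
  ciInf_le (f := fun l' : {l' : List Q // l'.sum = l.sum} => D.cost l'.1 g)
    ⟨0, by rintro _ ⟨l', rfl⟩; exact D.cost_nonneg _ _⟩ ⟨l, rfl⟩

theorem exists_lt (p : Q × G) {ε : ℝ} (hε : 0 < ε) :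
    ∃ l : List Q, l.sum = p.1 ∧ D.cost l p.2 < D.N p + ε := by
  have : Nonempty {l : List Q // l.sum = p.1} := ⟨⟨[p.1], by simp⟩⟩
  obtain ⟨l, hl⟩ := exists_lt_of_ciInf_lt (show D.N p < D.N p + ε by linarith)
  exact ⟨l.1, l.2, hl⟩

theorem le_N {p : Q × G} {C : ℝ} (h : ∀ l : List Q, l.sum = p.1 → C ≤ D.cost l p.2) :
    C ≤ D.N p := by
  have : Nonempty {l : List Q // l.sum = p.1} := ⟨⟨[p.1], by simp⟩⟩
  exact le_ciInf fun l => h l.1 l.2

theorem norm_sum_le (l : List Q) : ‖l.sum‖ ≤ (l.map norm).sum := by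
  induction l with
  | nil => simp
  | cons a l ih =>
    simp only [List.sum_cons, List.map_cons]
    exact (norm_add_le _ _).trans (by gcongr)

theorem norm_sum_σ_le (l : List Q) : ‖(l.map D.σ).sum‖ ≤ (l.map norm).sum := by
  induction l with
  | nil => simp
  | cons a l ih =>
    simp only [List.sum_cons, List.map_cons]
    exact (norm_add_le _ _).trans (add_le_add (D.le a) ih)

theorem norm_fst_le (p : Q × G) : ‖p.1‖ ≤ D.N p :=
  D.le_N fun l hl => by
    rw [← hl]
    exact (norm_sum_le l).trans (le_add_of_nonneg_right (norm_nonneg _))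

theorem norm_snd_le (p : Q × G) : ‖p.2‖ ≤ D.N p :=
  D.le_N fun l _ => by
    have h1 := D.norm_sum_σ_le l
    have h2 : ‖p.2‖ ≤ ‖p.2 - (l.map D.σ).sum‖ + ‖(l.map D.σ).sum‖ := by
      have := norm_add_le (p.2 - (l.map D.σ).sum) (l.map D.σ).sum
      rwa [sub_add_cancel] at this
    unfold cost
    linarith

theorem N_le_single (z : Q) (g : G) : D.N (z, g) ≤ ‖z‖ + ‖g - D.σ z‖ := by
  have := D.N_le [z] g
  simpa [cost] using this

theorem N_le_add (z : Q) (g : G) : D.N (z, g) ≤ 2 * (‖z‖ + ‖g‖) := by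
  have h1 := D.N_le_single z g
  have h2 := norm_sub_le g (D.σ z)
  have h3 := D.le z
  have := norm_nonneg g
  linarith

theorem σ_zero : D.σ 0 = 0 := by
  have := D.hom 0 0
  simpa using this

theorem N_zero : D.N 0 = 0 := by
  refine le_antisymm ?_ (D.le_N fun l _ => D.cost_nonneg _ _)
  change D.N (0, 0) ≤ 0
  have := D.N_le_single 0 0
  rw [D.σ_zero] at this
  simpa using this

theorem N_add (p q : Q × G) : D.N (p + q) ≤ D.N p + D.N q := by
  refine le_of_forall_pos_le_add fun ε hε => ?_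
  obtain ⟨l, hl, hl2⟩ := D.exists_lt p (half_pos hε)
  obtain ⟨m, hm, hm2⟩ := D.exists_lt q (half_pos hε)
  have h1 := D.N_le (l ++ m) (p.2 + q.2)
  rw [List.sum_append, hl, hm] at h1
  have h2 : D.cost (l ++ m) (p.2 + q.2) ≤ D.cost l p.2 + D.cost m q.2 := by
    unfold cost
    simp only [List.map_append, List.sum_append]
    have h3 : p.2 + q.2 - ((l.map D.σ).sum + (m.map D.σ).sum) =
        (p.2 - (l.map D.σ).sum) + (q.2 - (m.map D.σ).sum) := by abel
    rw [h3]
    have := norm_add_le (p.2 - (l.map D.σ).sum) (q.2 - (m.map D.σ).sum)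
    linarith
  have h3 : (p.1 + q.1, p.2 + q.2) = p + q := rfl
  rw [h3] at h1
  linarith

theorem N_smul_le (c : 𝕜) (p : Q × G) : D.N (c • p) ≤ ‖c‖ * D.N p := by
  refine le_of_forall_pos_le_add fun ε hε => ?_
  have hc : 0 < ‖c‖ + 1 := by positivity
  obtain ⟨l, hl, hl2⟩ := D.exists_lt p (div_pos hε hc)
  have h1 := D.N_le (l.map (c • ·)) (c • p.2)
  have h2 : (l.map (c • ·)).sum = c • p.1 := by
    rw [← hl]
    exact (List.smul_sum).symm
  rw [h2] at h1
  have h3 : D.cost (l.map (c • ·)) (c • p.2) = ‖c‖ * D.cost l p.2 := by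
    unfold cost
    rw [List.map_map, List.map_map]
    have e1 : (l.map (norm ∘ fun x => c • x)).sum = ‖c‖ * (l.map norm).sum := by
      rw [← List.sum_map_mul_left]
      congr 1
      apply List.map_congr_left
      intro x _
      exact norm_smul c x
    have e2 : (l.map (D.σ ∘ fun x => c • x)).sum = c • (l.map D.σ).sum := by
      rw [List.smul_sum, List.map_map]
      congr 1
      apply List.map_congr_left
      intro x _
      exact D.hom c x
    rw [e1, e2, ← smul_sub, norm_smul]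
    ring
  rw [h3] at h1
  have h4 : (c • p.1, c • p.2) = c • p := rfl
  rw [h4] at h1
  have h5 : ‖c‖ * D.cost l p.2 ≤ ‖c‖ * (D.N p + ε / (‖c‖ + 1)) := by gcongr
  have h6 : ‖c‖ * (ε / (‖c‖ + 1)) ≤ ε := by
    rw [mul_div_assoc', div_le_iff₀ hc]
    nlinarith [norm_nonneg c]
  linarith

theorem eq_zero_of_N {p : Q × G} (h : D.N p = 0) : p = 0 := by
  have h1 := D.norm_fst_le p
  have h2 := D.norm_snd_le p
  rw [h] at h1 h2
  exact Prod.ext (norm_le_zero_iff.1 h1) (norm_le_zero_iff.1 h2)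

/-- the key estimate -/
theorem key_le (φ : G →L[𝕜] 𝕜) {z : Q} (hz : ‖z‖ = 1) {η : ℝ} (hη : 0 < η) :
    ∃ C : ℝ, 0 ≤ C ∧ ∀ u : Q, ‖φ (D.σ u) - inner 𝕜 z u * φ (D.σ z)‖ ≤
      η * ‖u‖ + C * (‖u‖ - RCLike.re (inner 𝕜 z u)) := by
  let F : Q → 𝕜 := fun u => φ (D.σ u) - inner 𝕜 z u * φ (D.σ z)
  have hF : Continuous F := (D.cont φ).sub ((continuous_const.inner continuous_id).mul continuous_const)
  have hFz : F z = 0 := by
    simp only [F]
    rw [inner_self_eq_norm_sq_to_K, hz]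
    simp
  have hFh : ∀ (r : ℝ) (u : Q), F ((r : 𝕜) • u) = (r : 𝕜) * F u := by
    intro r u
    simp only [F]
    rw [D.hom, map_smul, inner_smul_right, smul_eq_mul]
    ring
  have hFb : ∀ u, ‖F u‖ ≤ 2 * ‖φ‖ * ‖u‖ := by
    intro u
    have h1 : ‖φ (D.σ u)‖ ≤ ‖φ‖ * ‖u‖ :=
      (φ.le_opNorm _).trans (mul_le_mul_of_nonneg_left (D.le u) (norm_nonneg _))
    have h2 : ‖inner 𝕜 z u * φ (D.σ z)‖ ≤ ‖u‖ * ‖φ‖ := by
      rw [norm_mul]
      have h3 : ‖inner 𝕜 z u‖ ≤ ‖u‖ := by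
        have := norm_inner_le_norm (𝕜 := 𝕜) z u
        rwa [hz, one_mul] at this
      have h4 : ‖φ (D.σ z)‖ ≤ ‖φ‖ := by
        have := (φ.le_opNorm (D.σ z)).trans (mul_le_mul_of_nonneg_left (D.le z) (norm_nonneg _))
        rwa [hz, mul_one] at this
      gcongr
    calc ‖F u‖ ≤ ‖φ (D.σ u)‖ + ‖inner 𝕜 z u * φ (D.σ z)‖ := norm_sub_le _ _
      _ ≤ _ := by linarith
  -- continuity at z
  obtain ⟨δ, hδ, hδF⟩ := Metric.continuousAt_iff.1 hF.continuousAt η hη
  refine ⟨2 * ‖φ‖ * (2 / δ ^ 2), by positivity, fun u => ?_⟩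
  by_cases hu : u = 0
  · subst hu
    rw [D.σ_zero]
    simp
  have hu0 : 0 < ‖u‖ := norm_pos_iff.2 hu
  -- normalise
  set v : Q := ((‖u‖⁻¹ : ℝ) : 𝕜) • u with hv
  have hvn : ‖v‖ = 1 := by
    rw [hv, norm_smul, RCLike.norm_ofReal, abs_of_pos (by positivity)]
    field_simp
  have huv : u = ((‖u‖ : ℝ) : 𝕜) • v := by
    rw [hv, smul_smul, ← RCLike.ofReal_mul, mul_inv_cancel₀ hu0.ne', RCLike.ofReal_one, one_smul]
  have hre : RCLike.re (inner 𝕜 z u) = ‖u‖ * RCLike.re (inner 𝕜 z v) := by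
    conv_lhs => rw [huv, inner_smul_right, RCLike.re_ofReal_mul]
  have hrele : RCLike.re (inner 𝕜 z v) ≤ 1 := by
    have := re_inner_le_norm (𝕜 := 𝕜) z v
    rwa [hz, hvn, one_mul] at this
  have hsq : ‖v - z‖ ^ 2 = 2 * (1 - RCLike.re (inner 𝕜 z v)) := by
    rw [norm_sub_sq (𝕜 := 𝕜), hz, hvn, ← inner_conj_symm, RCLike.conj_re]
    ring
  have hmain : ‖F v‖ ≤ η + 2 * ‖φ‖ * (2 / δ ^ 2) * (1 - RCLike.re (inner 𝕜 z v)) := by
    by_cases hd : dist v z < δ
    · have h1 := hδF hd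
      rw [hFz, dist_zero_right] at h1
      have h2 : 0 ≤ 2 * ‖φ‖ * (2 / δ ^ 2) * (1 - RCLike.re (inner 𝕜 z v)) := by
        have : 0 ≤ 1 - RCLike.re (inner 𝕜 z v) := by linarith
        positivity
      linarith
    · rw [not_lt, dist_eq_norm] at hd
      have h1 : δ ^ 2 ≤ 2 * (1 - RCLike.re (inner 𝕜 z v)) := by
        rw [← hsq]; gcongr
      have h2 := hFb v
      rw [hvn, mul_one] at h2
      have h3 : 1 ≤ (2 / δ ^ 2) * (1 - RCLike.re (inner 𝕜 z v)) := by
        rw [div_mul_eq_mul_div, le_div_iff₀ (by positivity)]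
        linarith
      calc ‖F v‖ ≤ 2 * ‖φ‖ * 1 := by linarith
        _ ≤ 2 * ‖φ‖ * ((2 / δ ^ 2) * (1 - RCLike.re (inner 𝕜 z v))) := by gcongr
        _ ≤ _ := by nlinarith
  have h1 : F u = ((‖u‖ : ℝ) : 𝕜) * F v := by
    conv_lhs => rw [huv]
    exact hFh _ _
  change ‖F u‖ ≤ _
  rw [h1, norm_mul, RCLike.norm_ofReal, abs_of_pos hu0, hre]
  calc ‖u‖ * ‖F v‖ ≤ ‖u‖ * (η + 2 * ‖φ‖ * (2 / δ ^ 2) * (1 - RCLike.re (inner 𝕜 z v))) := by gcongr
    _ = _ := by ring

theorem list_est (φ : G →L[𝕜] 𝕜) {z : Q} {η C : ℝ}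
    (h : ∀ u : Q, ‖φ (D.σ u) - inner 𝕜 z u * φ (D.σ z)‖ ≤
      η * ‖u‖ + C * (‖u‖ - RCLike.re (inner 𝕜 z u))) (l : List Q) :
    ‖φ ((l.map D.σ).sum) - inner 𝕜 z l.sum * φ (D.σ z)‖ ≤
      η * (l.map norm).sum + C * ((l.map norm).sum - RCLike.re (inner 𝕜 z l.sum)) := by
  induction l with
  | nil => simp
  | cons a l ih =>
    simp only [List.sum_cons, List.map_cons]
    rw [map_add, inner_add_right, map_add]
    have h1 := h a
    have e : φ (D.σ a) + φ ((l.map D.σ).sum) - (inner 𝕜 z a + inner 𝕜 z l.sum) * φ (D.σ z) =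
        (φ (D.σ a) - inner 𝕜 z a * φ (D.σ z)) +
          (φ ((l.map D.σ).sum) - inner 𝕜 z l.sum * φ (D.σ z)) := by ring
    rw [e]
    refine (norm_add_le _ _).trans ?_
    linarith

theorem unique_unit {z : Q} {g : G} (hz : ‖z‖ = 1) (h : D.N (z, g) ≤ 1) : g = D.σ z := by
  refine (SeparatingDual.eq_iff_forall_dual_eq (R := 𝕜)).2 fun φ => ?_
  rw [← sub_eq_zero, ← norm_le_zero_iff]
  refine le_of_forall_pos_le_add fun η hη => ?_
  obtain ⟨C, hC, hk⟩ := D.key_le φ hz (show 0 < η / 3 by positivity)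
  -- choose ε
  set ε : ℝ := min 1 (η / (3 * (C + ‖φ‖ + 1))) with hε
  have hεp : 0 < ε := by positivity
  obtain ⟨l, hl, hl2⟩ := D.exists_lt (z, g) hεp
  have h1 := D.list_est φ hk l
  simp only at hl hl2
  rw [hl, inner_self_eq_norm_sq_to_K, hz] at h1
  simp only [RCLike.ofReal_one, one_pow, one_mul, RCLike.one_re] at h1
  have hS : (l.map norm).sum ≤ 1 + ε := by
    unfold cost at hl2
    have := norm_nonneg (g - (l.map D.σ).sum)
    linarith
  have hR : ‖g - (l.map D.σ).sum‖ ≤ ε := by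
    unfold cost at hl2
    have h2 := norm_sum_le l
    rw [hl, hz] at h2
    linarith
  have h3 : ‖φ g - φ ((l.map D.σ).sum)‖ ≤ ‖φ‖ * ε := by
    rw [← map_sub]
    exact (φ.le_opNorm _).trans (by gcongr)
  have h4 : ‖φ g - φ (D.σ z)‖ ≤ ‖φ‖ * ε + (η / 3 * (1 + ε) + C * ε) := by
    calc ‖φ g - φ (D.σ z)‖ ≤ ‖φ g - φ ((l.map D.σ).sum)‖ + ‖φ ((l.map D.σ).sum) - φ (D.σ z)‖ :=
          norm_sub_le_norm_sub_add_norm_sub _ _ _
      _ ≤ ‖φ‖ * ε + (η / 3 * (l.map norm).sum + C * ((l.map norm).sum - 1)) := by gcongr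
      _ ≤ _ := by
        have h5 : η / 3 * (l.map norm).sum ≤ η / 3 * (1 + ε) := by gcongr
        have h6 : C * ((l.map norm).sum - 1) ≤ C * ε := by
          apply mul_le_mul_of_nonneg_left _ hC
          linarith
        linarith
  have hε1 : ε ≤ 1 := min_le_left _ _
  have hε2 : (C + ‖φ‖ + 1) * ε ≤ η / 3 := by
    have h7 : ε ≤ η / (3 * (C + ‖φ‖ + 1)) := min_le_right _ _
    have h8 : 0 < C + ‖φ‖ + 1 := by positivity
    calc (C + ‖φ‖ + 1) * ε ≤ (C + ‖φ‖ + 1) * (η / (3 * (C + ‖φ‖ + 1))) := by gcongr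
      _ = η / 3 := by field_simp
  have h9 : η / 3 * ε ≤ η / 3 := by
    calc η / 3 * ε ≤ η / 3 * 1 := by gcongr
      _ = η / 3 := mul_one _
  nlinarith

theorem unique {z : Q} {g : G} (h : D.N (z, g) ≤ ‖z‖) : g = D.σ z := by
  by_cases hz : z = 0
  · subst hz
    rw [norm_zero] at h
    have h1 := D.eq_zero_of_N (le_antisymm h (D.le_N fun l _ => D.cost_nonneg _ _))
    have h2 : g = 0 := congrArg Prod.snd h1
    rw [h2, D.σ_zero]
  · have hz0 : 0 < ‖z‖ := norm_pos_iff.2 hz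
    set c : 𝕜 := ((‖z‖⁻¹ : ℝ) : 𝕜) with hc
    have hcn : ‖c‖ = ‖z‖⁻¹ := by rw [hc, RCLike.norm_ofReal, abs_of_pos (by positivity)]
    have hc0 : c ≠ 0 := by
      rw [← norm_ne_zero_iff, hcn]
      positivity
    have h1 : ‖c • z‖ = 1 := by rw [norm_smul, hcn, inv_mul_cancel₀ hz0.ne']
    have h2 : D.N (c • z, c • g) ≤ 1 := by
      have h3 := D.N_smul_le c (z, g)
      have h4 : ‖c‖ * D.N (z, g) ≤ 1 := by
        rw [hcn, inv_mul_le_iff₀ hz0, mul_one]
        exact h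
      exact h3.trans h4
    have h3 := D.unique_unit h1 h2
    rw [D.hom] at h3
    exact smul_right_injective G hc0 h3

theorem N_σ (z : Q) : D.N (z, D.σ z) ≤ ‖z‖ := by
  have := D.N_le_single z (D.σ z)
  simpa using this

/-- the renormed space -/
def Sp (_D : Dat 𝕜 Q G) : Type := Q × G

noncomputable instance : AddCommGroup D.Sp := inferInstanceAs (AddCommGroup (Q × G))
noncomputable instance : Module 𝕜 D.Sp := inferInstanceAs (Module 𝕜 (Q × G))

noncomputable instance : NormedAddCommGroup D.Sp :=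
  AddGroupNorm.toNormedAddCommGroup
    { toFun := fun x => D.N (x : Q × G)
      map_zero' := D.N_zero
      add_le' := D.N_add
      neg' := by
        have h : ∀ x : Q × G, D.N (-x) ≤ D.N x := by
          intro x
          have := D.N_smul_le (-1 : 𝕜) x
          simpa using this
        have h2 : ∀ x : Q × G, D.N x ≤ D.N (-x) := by
          intro x
          have := h (-x)
          rwa [neg_neg] at this
        exact fun x => le_antisymm (h x) (h2 x)
      eq_zero_of_map_eq_zero' := fun x hx => D.eq_zero_of_N hx }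

theorem norm_def (x : D.Sp) : ‖x‖ = D.N (x : Q × G) := rfl

noncomputable instance : NormedSpace 𝕜 D.Sp where
  norm_smul_le c x := D.N_smul_le c x

/-- the first coordinate -/
noncomputable def fstL : D.Sp →L[𝕜] Q :=
  LinearMap.mkContinuous
    { toFun := fun x => (x : Q × G).1
      map_add' := fun _ _ => rfl
      map_smul' := fun _ _ => rfl } 1 (fun x => by
        rw [one_mul]
        exact D.norm_fst_le x)

/-- the second coordinate -/
noncomputable def sndL : D.Sp →L[𝕜] G :=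
  LinearMap.mkContinuous
    { toFun := fun x => (x : Q × G).2
      map_add' := fun _ _ => rfl
      map_smul' := fun _ _ => rfl } 1 (fun x => by
        rw [one_mul]
        exact D.norm_snd_le x)

/-- the inclusion of `G` -/
noncomputable def inr : G →L[𝕜] D.Sp :=
  LinearMap.mkContinuous
    { toFun := fun g => ((0, g) : Q × G)
      map_add' := fun x y => by
        have h : ((0, x + y) : Q × G) = (0, x) + (0, y) := by simp
        exact h
      map_smul' := fun c x => by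
        have h : ((0, c • x) : Q × G) = c • (0, x) := by simp
        exact h } 2 (fun g => by
        have h : D.N (0, g) ≤ 2 * ‖g‖ := by
          have := D.N_le_add 0 g
          simpa using this
        exact h)

/-- the inclusion of `Q` -/
noncomputable def inl : Q →L[𝕜] D.Sp :=
  LinearMap.mkContinuous
    { toFun := fun g => ((g, 0) : Q × G)
      map_add' := fun x y => by
        have h : ((x + y, 0) : Q × G) = (x, 0) + (y, 0) := by simp
        exact h
      map_smul' := fun c x => by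
        have h : ((c • x, 0) : Q × G) = c • (x, 0) := by simp
        exact h } 2 (fun g => by
        have h : D.N (g, 0) ≤ 2 * ‖g‖ := by
          have := D.N_le_add g 0
          simpa using this
        exact h)

theorem decomp (x : D.Sp) : x = D.inl (D.fstL x) + D.inr (D.sndL x) := by
  have h : ∀ x : Q × G, x = (x.1, 0) + (0, x.2) := fun x => by simp
  exact h x

theorem norm_pair (z : Q) (g : G) : ‖D.inl z + D.inr g‖ = D.N (z, g) := by
  have h : D.N (((z, 0) : Q × G) + (0, g)) = D.N (z, g) := by simp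
  exact h

/-- the subspace -/
noncomputable def sub : Submodule 𝕜 D.Sp := LinearMap.ker (D.fstL : D.Sp →ₗ[𝕜] Q)

theorem mem_sub (x : D.Sp) : x ∈ D.sub ↔ D.fstL x = 0 := Iff.rfl

theorem isClosed_sub : IsClosed (D.sub : Set D.Sp) := ContinuousLinearMap.isClosed_ker D.fstL

/-- the metric projection -/
noncomputable def proj (x : D.Sp) : D.Sp := D.inr (D.sndL x - D.σ (D.fstL x))

theorem fst_inr (g : G) : D.fstL (D.inr g) = 0 := rfl
theorem snd_inr (g : G) : D.sndL (D.inr g) = g := rfl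
theorem fst_inl (g : Q) : D.fstL (D.inl g) = g := rfl
theorem snd_inl (g : Q) : D.sndL (D.inl g) = 0 := rfl

theorem norm_sub_inr (x : D.Sp) (g : G) :
    ‖x - D.inr g‖ = D.N (D.fstL x, D.sndL x - g) := by
  have e : x - D.inr g = D.inl (D.fstL x) + D.inr (D.sndL x - g) := by
    conv_lhs => rw [D.decomp x]
    rw [map_sub]
    abel
  rw [e, norm_pair]

theorem norm_sub_proj (x : D.Sp) : ‖x - D.proj x‖ ≤ ‖D.fstL x‖ := by
  unfold proj
  rw [norm_sub_inr, sub_sub_cancel]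
  exact D.N_σ _

theorem eq_inr_of_mem {h : D.Sp} (hh : h ∈ D.sub) : h = D.inr (D.sndL h) := by
  have h1 : D.fstL h = 0 := hh
  conv_lhs => rw [D.decomp h]
  rw [h1, map_zero, zero_add]

theorem isNearest_proj (x : D.Sp) : IsNearest (D.sub : Set D.Sp) x (D.proj x) := by
  refine ⟨D.fst_inr _, fun h hh => ?_⟩
  refine (D.norm_sub_proj x).trans ?_
  have h1 : D.fstL (x - h) = D.fstL x := by
    rw [map_sub, show D.fstL h = 0 from hh, sub_zero]
  rw [← h1]
  exact D.norm_fst_le _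

theorem isChebyshev : IsChebyshev (D.sub : Set D.Sp) := by
  intro x
  refine ⟨D.proj x, D.isNearest_proj x, ?_⟩
  rintro g ⟨hg, hg2⟩
  have h1 := (hg2 _ (D.isNearest_proj x).1).trans (D.norm_sub_proj x)
  rw [D.eq_inr_of_mem hg, norm_sub_inr] at h1
  have h2 := D.unique h1
  rw [D.eq_inr_of_mem hg]
  unfold proj
  rw [← h2, sub_sub_cancel]

theorem weaklyContinuous_aux {X : Type} [TopologicalSpace X] {f : X → D.Sp}
    (hf : ∀ φ : D.Sp →L[𝕜] 𝕜, Continuous fun x => φ (f x))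
    (hq : Continuous fun x => D.fstL (f x)) (φ : D.Sp →L[𝕜] 𝕜) :
    Continuous fun x => φ (D.proj (f x)) := by
  have h1 : ∀ x : D.Sp, D.proj x = x - D.inl (D.fstL x) - D.inr (D.σ (D.fstL x)) := by
    intro x
    unfold proj
    conv_rhs => enter [1, 1]; rw [D.decomp x]
    rw [map_sub]
    abel
  simp_rw [h1, map_sub]
  refine ((hf φ).sub ((φ.comp D.inl).continuous.comp hq)).sub ?_
  exact (D.cont (φ.comp D.inr)).comp hq

end Dat

end abstr

section concrete

variable (𝕜 : Type) [RCLike 𝕜]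

/-- the quotient space -/
abbrev QS : Type := EuclideanSpace 𝕜 (Fin 2)
/-- the subspace, as a Hilbert space -/
abbrev GS : Type := lp (fun _ : ℕ => 𝕜) 2

/-- tent functions -/
noncomputable def T (n : ℕ) (τ : ℝ) : ℝ := max 0 (1 - 2 * |τ - (n + 1)|)

theorem T_nonneg (n : ℕ) (τ : ℝ) : 0 ≤ T n τ := le_max_left _ _

theorem T_le_one (n : ℕ) (τ : ℝ) : T n τ ≤ 1 := by
  unfold T
  refine max_le zero_le_one ?_
  have := abs_nonneg (τ - (n + 1))
  linarith

theorem T_continuous (n : ℕ) : Continuous (T n) := by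
  unfold T
  fun_prop

theorem T_ne {n : ℕ} {τ : ℝ} (h : n ≠ ⌊τ - 1 / 2⌋₊) : T n τ = 0 := by
  unfold T
  rw [max_eq_left_iff]
  by_contra hcon
  rw [not_le] at hcon
  have h1 : |τ - (n + 1)| < 1 / 2 := by linarith
  rw [abs_lt] at h1
  apply h
  symm
  rw [Nat.floor_eq_iff (by
    have : (0 : ℝ) ≤ n := Nat.cast_nonneg n
    linarith)]
  constructor <;> linarith

/-- basis vectors -/
noncomputable def e (n : ℕ) : GS 𝕜 := lp.single 2 n (1 : 𝕜)

theorem norm_e (n : ℕ) : ‖e 𝕜 n‖ = 1 := by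
  unfold e
  rw [lp.norm_single (by norm_num)]
  simp

/-- the moving vector -/
noncomputable def w (τ : ℝ) : GS 𝕜 :=
  ((T ⌊τ - 1 / 2⌋₊ τ : ℝ) : 𝕜) • e 𝕜 ⌊τ - 1 / 2⌋₊

theorem norm_w_le (τ : ℝ) : ‖w 𝕜 τ‖ ≤ 1 := by
  unfold w
  rw [norm_smul, norm_e, mul_one, RCLike.norm_ofReal, abs_of_nonneg (T_nonneg _ _)]
  exact T_le_one _ _

theorem w_eq_sum {τ : ℝ} {N : ℕ} (h : τ < N) :
    w 𝕜 τ = ∑ n ∈ Finset.range N, ((T n τ : ℝ) : 𝕜) • e 𝕜 n := by
  by_cases hN : ⌊τ - 1 / 2⌋₊ ∈ Finset.range N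
  · rw [Finset.sum_eq_single_of_mem _ hN]
    · rfl
    · intro b _ hb
      rw [T_ne hb]
      simp
  · rw [Finset.mem_range, not_lt] at hN
    have h0 : N = 0 := by
      by_contra hne
      have h1 : (⌊τ - 1 / 2⌋₊ : ℝ) ≤ τ - 1 / 2 ∨ ⌊τ - 1 / 2⌋₊ = 0 := by
        by_cases h2 : 0 ≤ τ - 1 / 2
        · exact Or.inl (Nat.floor_le h2)
        · exact Or.inr (Nat.floor_of_nonpos (by linarith))
      rcases h1 with h1 | h1
      · have h2 : (N : ℝ) ≤ ⌊τ - 1 / 2⌋₊ := by exact_mod_cast hN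
        linarith
      · omega
    subst h0
    simp only [Finset.range_zero, Finset.sum_empty]
    unfold w
    have h1 : ⌊τ - 1 / 2⌋₊ = 0 := Nat.floor_of_nonpos (by
      simp at h
      linarith)
    rw [h1]
    have h2 : T 0 τ = 0 := by
      unfold T
      rw [max_eq_left_iff]
      simp at h
      have : |τ - ((0 : ℕ) + 1)| = 1 - τ := by
        rw [abs_of_neg] <;> simp <;> linarith
      rw [this]
      linarith
    rw [h2]
    simp

theorem w_continuous : Continuous (w 𝕜) := by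
  rw [continuous_iff_continuousAt]
  intro τ
  obtain ⟨N, hN⟩ := exists_nat_gt τ
  have h1 : ∀ᶠ x : ℝ in 𝓝 τ, x < (N : ℝ) := eventually_lt_nhds hN
  have h2 : w 𝕜 =ᶠ[𝓝 τ] fun x => ∑ n ∈ Finset.range N, ((T n x : ℝ) : 𝕜) • e 𝕜 n := by
    filter_upwards [h1] with x hx
    exact w_eq_sum 𝕜 hx
  refine ContinuousAt.congr ?_ h2.symm
  apply Continuous.continuousAt
  refine continuous_finsetSum _ fun n _ => ?_
  have h3 : Continuous fun x => ((T n x : ℝ) : 𝕜) := RCLike.continuous_ofReal.comp (T_continuous n)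
  exact h3.smul (continuous_const (y := e 𝕜 n))

theorem tendsto_e (φ : GS 𝕜 →L[𝕜] 𝕜) : Tendsto (fun n => φ (e 𝕜 n)) atTop (𝓝 0) := by
  obtain ⟨x, hx⟩ := (InnerProductSpace.toDual 𝕜 (GS 𝕜)).surjective φ
  have h1 : ∀ n, φ (e 𝕜 n) = (starRingEnd 𝕜) (x n) := by
    intro n
    rw [← hx, InnerProductSpace.toDual_apply_apply]
    unfold e
    rw [lp.inner_single_right]
    simp
  have h2 : Tendsto (fun n => ‖x n‖ ^ 2) atTop (𝓝 0) := by
    have h3 := (lp.memℓp x).summable (by norm_num)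
    have h4 := h3.tendsto_atTop_zero
    simpa using h4
  rw [tendsto_zero_iff_norm_tendsto_zero]
  have h5 : Tendsto (fun n => Real.sqrt (‖x n‖ ^ 2)) atTop (𝓝 0) := by
    have := h2.sqrt
    simpa using this
  refine h5.congr fun n => ?_
  rw [h1, Real.sqrt_sq (norm_nonneg _), RCLike.norm_conj]

theorem tendsto_w (φ : GS 𝕜 →L[𝕜] 𝕜) : Tendsto (fun τ => φ (w 𝕜 τ)) atTop (𝓝 0) := by
  have h1 : Tendsto (fun τ : ℝ => ⌊τ - 1 / 2⌋₊) atTop atTop :=
    tendsto_nat_floor_atTop.comp (tendsto_atTop_add_const_right _ _ tendsto_id)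
  have h2 := ((tendsto_e 𝕜 φ).comp h1).norm
  rw [norm_zero] at h2
  refine squeeze_zero_norm (fun τ => ?_) h2
  unfold w
  rw [map_smul, norm_smul, RCLike.norm_ofReal, abs_of_nonneg (T_nonneg _ _)]
  calc T ⌊τ - 1 / 2⌋₊ τ * ‖φ (e 𝕜 ⌊τ - 1 / 2⌋₊)‖ ≤ 1 * ‖φ (e 𝕜 ⌊τ - 1 / 2⌋₊)‖ := by
        gcongr
        exact T_le_one _ _
    _ = _ := one_mul _

/-- the selection -/
noncomputable def sig (z : QS 𝕜) : GS 𝕜 := z 0 • w 𝕜 (‖z 0‖ / ‖z 1‖)

/-- the data -/
noncomputable def dat : Dat 𝕜 (QS 𝕜) (GS 𝕜) where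
  σ := sig 𝕜
  hom c z := by
    by_cases hc : c = 0
    · subst hc
      simp [sig]
    · unfold sig
      have hc' : ‖c‖ ≠ 0 := norm_ne_zero_iff.2 hc
      simp only [PiLp.smul_apply, smul_eq_mul, norm_mul]
      rw [mul_div_mul_left _ _ hc', mul_smul]
  le z := by
    unfold sig
    rw [norm_smul]
    calc ‖z 0‖ * ‖w 𝕜 (‖z 0‖ / ‖z 1‖)‖ ≤ ‖z 0‖ * 1 := by
          gcongr
          exact norm_w_le _ _
      _ ≤ ‖z‖ := by rw [mul_one]; exact PiLp.norm_apply_le z 0
  cont φ := by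
    have hz0 : Continuous fun z : QS 𝕜 => z 0 := by fun_prop
    have hz1 : Continuous fun z : QS 𝕜 => z 1 := by fun_prop
    rw [continuous_iff_continuousAt]
    intro z
    by_cases h1 : z 1 = 0
    · by_cases h0 : z 0 = 0
      · -- at the origin
        have hb : ∀ x : QS 𝕜, ‖φ (sig 𝕜 x)‖ ≤ ‖φ‖ * ‖x 0‖ := by
          intro x
          refine (φ.le_opNorm _).trans ?_
          gcongr
          unfold sig
          rw [norm_smul]
          calc ‖x 0‖ * ‖w 𝕜 (‖x 0‖ / ‖x 1‖)‖ ≤ ‖x 0‖ * 1 := by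
                gcongr
                exact norm_w_le _ _
            _ = _ := mul_one _
        have hlim : Tendsto (fun x : QS 𝕜 => ‖φ‖ * ‖x 0‖) (𝓝 z) (𝓝 0) := by
          have : Continuous fun x : QS 𝕜 => ‖φ‖ * ‖x 0‖ := continuous_const.mul hz0.norm
          have h2 := this.tendsto z
          rwa [h0, norm_zero, mul_zero] at h2
        have h3 : φ (sig 𝕜 z) = 0 := by
          unfold sig
          rw [h0, zero_smul, map_zero]
        change Tendsto (fun z => φ (sig 𝕜 z)) (𝓝 z) (𝓝 (φ (sig 𝕜 z)))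
        rw [h3]
        exact squeeze_zero_norm hb hlim
      · -- on the axis
        have h3 : φ (sig 𝕜 z) = 0 := by
          unfold sig
          rw [h1, norm_zero, div_zero]
          have : w 𝕜 0 = 0 := by
            have := w_eq_sum 𝕜 (τ := 0) (N := 1) (by norm_num)
            rw [this]
            simp [T]
          rw [this, smul_zero, map_zero]
        change Tendsto (fun z => φ (sig 𝕜 z)) (𝓝 z) (𝓝 (φ (sig 𝕜 z)))
        rw [h3]
        rw [Metric.tendsto_nhds]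
        intro ε hε
        -- bound
        have hw := (tendsto_w 𝕜 φ)
        have hev : ∀ᶠ τ : ℝ in atTop, ‖φ (w 𝕜 τ)‖ < ε / (‖z 0‖ + 1) := by
          have h4 := hw.norm
          rw [norm_zero] at h4
          exact h4.eventually_lt_const (by positivity)
        obtain ⟨M, hM⟩ := eventually_atTop.1 hev
        have hn0 : ∀ᶠ x : QS 𝕜 in 𝓝 z, ‖z 0‖ / 2 < ‖x 0‖ := by
          refine (hz0.norm.continuousAt (x := z)).eventually_const_lt ?_
          have := norm_pos_iff.2 h0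
          linarith
        have hn1 : ∀ᶠ x : QS 𝕜 in 𝓝 z, ‖x 0‖ < ‖z 0‖ + 1 := by
          refine (hz0.norm.continuousAt (x := z)).eventually_lt_const ?_
          linarith
        have hn2 : ∀ᶠ x : QS 𝕜 in 𝓝 z, ‖x 1‖ * (|M| + 1) < ‖z 0‖ / 2 := by
          have : Continuous fun x : QS 𝕜 => ‖x 1‖ * (|M| + 1) := hz1.norm.mul continuous_const
          refine (this.continuousAt (x := z)).eventually_lt_const ?_
          change ‖z 1‖ * (|M| + 1) < ‖z 0‖ / 2
          rw [h1, norm_zero, zero_mul]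
          have := norm_pos_iff.2 h0
          linarith
        filter_upwards [hn0, hn1, hn2] with x hx0 hx1 hx2
        rw [dist_zero_right]
        unfold sig
        rw [map_smul, norm_smul]
        by_cases hx : x 1 = 0
        · rw [hx, norm_zero, div_zero]
          have : w 𝕜 0 = 0 := by
            have := w_eq_sum 𝕜 (τ := 0) (N := 1) (by norm_num)
            rw [this]
            simp [T]
          rw [this, map_zero, norm_zero, mul_zero]
          exact hε
        · have hx' : 0 < ‖x 1‖ := norm_pos_iff.2 hx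
          have h5 : M ≤ ‖x 0‖ / ‖x 1‖ := by
            rw [le_div_iff₀ hx']
            have h6 : M * ‖x 1‖ ≤ ‖x 1‖ * (|M| + 1) := by
              have := le_abs_self M
              nlinarith
            linarith
          have h6 := hM _ h5
          calc ‖x 0‖ * ‖φ (w 𝕜 (‖x 0‖ / ‖x 1‖))‖ ≤ (‖z 0‖ + 1) * ‖φ (w 𝕜 (‖x 0‖ / ‖x 1‖))‖ := by
                gcongr
            _ < (‖z 0‖ + 1) * (ε / (‖z 0‖ + 1)) := by gcongr
            _ = ε := by field_simp
    · -- generic points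
      have h2 : ContinuousAt (fun x : QS 𝕜 => ‖x 0‖ / ‖x 1‖) z :=
        (hz0.norm.continuousAt).div (hz1.norm.continuousAt) (norm_ne_zero_iff.2 h1)
      have h3 : ContinuousAt (fun x : QS 𝕜 => w 𝕜 (‖x 0‖ / ‖x 1‖)) z :=
        ((w_continuous 𝕜).continuousAt).comp (f := fun x : QS 𝕜 => ‖x 0‖ / ‖x 1‖) h2
      have h4 : ContinuousAt (sig 𝕜) z := hz0.continuousAt.smul h3
      exact φ.continuous.continuousAt.comp (f := sig 𝕜) h4

/-- the sequence of points -/
noncomputable def zs (k : ℕ) : QS 𝕜 := !₂[1, ((1 / ((k : ℝ) + 1) : ℝ) : 𝕜)]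

theorem sig_zs (k : ℕ) : sig 𝕜 (zs 𝕜 k) = e 𝕜 k := by
  have h0 : (zs 𝕜 k) 0 = 1 := rfl
  have h1 : (zs 𝕜 k) 1 = ((1 / ((k : ℝ) + 1) : ℝ) : 𝕜) := rfl
  unfold sig
  rw [h0, h1, norm_one, RCLike.norm_ofReal, abs_of_pos (by positivity), one_div_one_div, one_smul]
  unfold w
  have h2 : ⌊(k : ℝ) + 1 - 1 / 2⌋₊ = k := by
    rw [Nat.floor_eq_iff (by
      have : (0 : ℝ) ≤ k := Nat.cast_nonneg k
      linarith)]
    constructor <;> linarith
  rw [h2]
  have h3 : T k ((k : ℝ) + 1) = 1 := by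
    unfold T
    simp
  rw [h3]
  simp

theorem tendsto_zs : Tendsto (zs 𝕜) atTop (𝓝 !₂[1, 0]) := by
  have h1 : Tendsto (fun k : ℕ => ((1 / ((k : ℝ) + 1) : ℝ) : 𝕜)) atTop (𝓝 0) := by
    have h2 : Tendsto (fun k : ℕ => (1 / ((k : ℝ) + 1) : ℝ)) atTop (𝓝 0) :=
      tendsto_one_div_add_atTop_nhds_zero_nat
    have h3 := (RCLike.continuous_ofReal (K := 𝕜)).continuousAt.tendsto.comp h2
    rw [RCLike.ofReal_zero] at h3
    exact h3
  have h4 : Continuous fun c : 𝕜 => (!₂[1, c] : QS 𝕜) := by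
    apply (PiLp.continuous_toLp 2 _).comp
    refine continuous_pi fun i => ?_
    fin_cases i
    · exact continuous_const
    · exact continuous_id
  exact (h4.tendsto 0).comp h1

end concrete

/-- **Q1 is false**, over the reals and over the complex numbers. There are a Banach space `E` and a
closed linear subspace `G` of `E` which is a Chebyshev set and whose metric projection `π` is
continuous for the weak topologies but not for the norm topologies. -/
theorem result (𝕜 : Type) [RCLike 𝕜] :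
    ∃ (E : Type) (_ : NormedAddCommGroup E) (_ : NormedSpace 𝕜 E) (_ : CompleteSpace E)
      (G : Submodule 𝕜 E) (π : E → E),
      IsClosed (G : Set E) ∧ IsChebyshev (G : Set E) ∧ (∀ x, IsNearest (G : Set E) x (π x)) ∧
      WeaklyContinuous 𝕜 π ∧ ¬ Continuous π := by
  refine ⟨(dat 𝕜).Sp, inferInstance, inferInstance, ?_, (dat 𝕜).sub, (dat 𝕜).proj,
    (dat 𝕜).isClosed_sub, (dat 𝕜).isChebyshev, (dat 𝕜).isNearest_proj, ?_, ?_⟩
  · -- completeness
    let f : (QS 𝕜 × GS 𝕜) ≃ₗ[𝕜] (dat 𝕜).Sp :=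
      { toFun := fun x => x
        invFun := fun x => x
        map_add' := fun _ _ => rfl
        map_smul' := fun _ _ => rfl
        left_inv := fun _ => rfl
        right_inv := fun _ => rfl }
    let F : (QS 𝕜 × GS 𝕜) ≃L[𝕜] (dat 𝕜).Sp :=
      LinearEquiv.toContinuousLinearEquivOfBounds f 4 1 (fun x => by
        change (dat 𝕜).N x ≤ _
        refine ((dat 𝕜).N_le_add x.1 x.2).trans ?_
        have h1 := norm_fst_le x
        have h2 := norm_snd_le x
        linarith) (fun x => by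
        rw [one_mul]
        exact max_le ((dat 𝕜).norm_fst_le x) ((dat 𝕜).norm_snd_le x))
    exact (F.isUniformEmbedding.completeSpace_congr F.surjective).1 inferInstance
  · -- weak continuity
    unfold WeaklyContinuous
    have hev : ∀ φ : (dat 𝕜).Sp →L[𝕜] 𝕜,
        Continuous fun x : WeakSpace 𝕜 (dat 𝕜).Sp => φ ((toWeakSpace 𝕜 (dat 𝕜).Sp).symm x) :=
      fun φ => WeakBilin.eval_continuous (topDualPairing 𝕜 (dat 𝕜).Sp).flip φ
    refine WeakBilin.continuous_of_continuous_eval _ fun φ => ?_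
    refine (dat 𝕜).weaklyContinuous_aux hev ?_ φ
    -- the first coordinate is weakly continuous
    have h1 : (fun x : WeakSpace 𝕜 (dat 𝕜).Sp => (dat 𝕜).fstL ((toWeakSpace 𝕜 (dat 𝕜).Sp).symm x)) =
        fun x => WithLp.toLp 2 (fun i => ((EuclideanSpace.proj i : QS 𝕜 →L[𝕜] 𝕜).comp (dat 𝕜).fstL)
          ((toWeakSpace 𝕜 (dat 𝕜).Sp).symm x)) := by
      funext x
      rfl
    rw [h1]
    apply (PiLp.continuous_toLp 2 _).comp
    exact continuous_pi fun i => hev _
  · -- not norm continuous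
    intro hc
    have h1 : Tendsto (fun k => (dat 𝕜).inl (zs 𝕜 k)) atTop (𝓝 ((dat 𝕜).inl !₂[1, 0])) :=
      ((dat 𝕜).inl.continuous.tendsto _).comp (tendsto_zs 𝕜)
    have h2 := (hc.tendsto _).comp h1
    have h3 := (dat 𝕜).sndL.continuous.tendsto _ |>.comp h2
    have h4 : ∀ k, ((dat 𝕜).sndL ∘ ((dat 𝕜).proj ∘ fun k => (dat 𝕜).inl (zs 𝕜 k))) k = - e 𝕜 k := by
      intro k
      change (0 : GS 𝕜) - sig 𝕜 (zs 𝕜 k) = _
      rw [sig_zs, zero_sub]
    have h5 : (dat 𝕜).sndL ((dat 𝕜).proj ((dat 𝕜).inl !₂[1, 0])) = 0 := by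
      change (0 : GS 𝕜) - sig 𝕜 !₂[1, 0] = _
      unfold sig
      have e1 : (!₂[1, 0] : QS 𝕜) 1 = 0 := rfl
      rw [e1, norm_zero, div_zero]
      have : w 𝕜 0 = 0 := by
        have := w_eq_sum 𝕜 (τ := 0) (N := 1) (by norm_num)
        rw [this]
        simp [T]
      rw [this, smul_zero, sub_zero]
    have h6 := h3.norm
    rw [h5, norm_zero] at h6
    have h7 : (fun k => ‖((dat 𝕜).sndL ∘ ((dat 𝕜).proj ∘ fun k => (dat 𝕜).inl (zs 𝕜 k))) k‖) =
        fun _ => (1 : ℝ) := by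
      funext k
      rw [h4, norm_neg, norm_e]
    rw [h7] at h6
    exact one_ne_zero (tendsto_nhds_unique tendsto_const_nhds h6)

end Pool.Agent.Results.MP_97ba4e_an.WeakNotNorm
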